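import Pool.Agent.J4H71.CF.Asm
import Pool.Agent.J4H71.CF.Data
import Pool.Agent.J4H71.CF.Big

/-!
# Counting number fields whose class groups have large `m`-rank

The problem asks for number fields of fixed degree `n` whose class groups have unbounded `m`-rank. The starting results of this
page construct, for every `m ≥ 2`, fields of degree `n` and every signature `(r₁, r₂)` with `m`-rank at least `r₂ + κ`, for
explicit `κ = κ(n, r₁) ≥ 2`. They are the fields `ℚ(θ)` with `L ∏ (θ - a i) + s ^ m = 0`, `L c = t ^ m - s ^ m`, for integers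
`a i` such that the polynomial `∏ (X - a i)` takes the value `c > 0` at many integers. Here these fields are counted: a positive
proportion of the pairs `(s, t)` in a suitable residue class and a suitable sector gives, up to bounded multiplicity, different
discriminants. With `|discr K| ≪ t ^ (2 m (n - 1))` this gives `≫ X ^ (1 / (m (n - 1)))` fields with `|discr K| ≤ X`. The
exponent is twice the one of Bilu and Luca (for fields with ONE element of order `m` in the class group).

The proof: a prime which divides `t ^ m - s ^ m` exactly once (and which does not divide `s`) divides the discriminant. The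
average of the logarithm of the product of these primes, taken over the primes between a small power of `U` and
`U ^ (1 + 5 / (6 m))`, is larger than `(2 + 1 / (4 m)) log U` (for `p ≤ U` the pairs with `p ∣ t ^ m - s ^ m` are counted
directly, for the larger ones one counts the points of the lattices `t ≡ r s` mod `p` in a box; prime number theorem for
arithmetic progressions). Hence for a positive proportion of the coprime pairs the product is larger than the square of the
size of `s` and `t`; then the pair is determined by the residues `t / s` modulo these primes, and there are at most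
`2 ^ (6 m ^ 2 N)` possibilities for them when the discriminant is given. For `m = 2` one uses the pairs for which
`t - s` and `t + s` are primes up to given factors.
-/

set_option autoImplicit false

namespace Pool.Agent.Results.MP_176ace_nt.CountingFields

open NumberField Pool.Agent.J4H71.CF

/-- the number `κ = exc n r₁ r₂` is at least `2` for `n ≥ 3` -/
theorem two_le_exc (n r₁ r₂ : ℕ) (hn : 3 ≤ n) : 2 ≤ exc n r₁ r₂ := by
  have h1 : 2 ≤ (if r₁ ≤ 1 ∨ r₂ = 0 then Pool.Agent.N53.CL.kap n else 2) := by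
    rw [Pool.Agent.N53.CL.kap]
    split_ifs <;> omega
  rw [exc, if_neg (by omega)]
  exact h1.trans (le_max_right _ _)

/-- the number `κ = exc n r₁ r₂` is `n - 1` for `n ≤ 7` and for `n = 9` -/
theorem exc_small (n r₁ r₂ : ℕ) (hn : 4 ≤ n) (h : n ≤ 7 ∨ n = 9) : exc n r₁ r₂ = n - 1 := by
  have h1 : Pool.Agent.N855.SG.excess n r₁ = n - 1 := by
    rw [Pool.Agent.N855.SG.excess, if_pos h]
  have h2 : Pool.Agent.N53.CL.kap n = n - 1 := by
    rw [Pool.Agent.N53.CL.kap, if_pos (by omega)]
  rw [exc, if_neg (by omega), h1, h2, if_pos (by omega)]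
  split_ifs <;> omega

/-- **The number of fields.** Let `n ≥ 2`, let `r₁ + 2 r₂ = n` and let `κ = exc n r₁ r₂`. There is an integer `Z₀ > 0` such that
for all `m ≥ 2` and `R`, and all disjoint finite sets `S` and `T` of primes not dividing `Z₀` (those of `T` not dividing `m`), the
following holds for some `c > 0` and all sufficiently large `X`. The number of the integers `d` with `|d| ≤ X` which are
discriminants of number fields of degree `n` and signature `(r₁, r₂)` whose class group contains `(ℤ/m)^(r₂+κ)` and `(ℤ/n)^R`,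
in which all primes of `S` split completely and all primes of `T` are totally ramified, is at least
`c X ^ (1 / (m (n - 1)))` if `m ≥ 3`, and at least `c X ^ (1 / (2 (n - 1))) / (log X) ^ 2` if `m = 2`. -/
theorem result (n r₁ r₂ : ℕ) (hn : 2 ≤ n) (hr : r₁ + 2 * r₂ = n) :
    ∃ Z₀ : ℕ, 0 < Z₀ ∧ ∀ m R : ℕ, 2 ≤ m → ∀ S T : Finset ℕ,
      (∀ p ∈ S, p.Prime ∧ ¬ p ∣ Z₀) → (∀ q ∈ T, q.Prime ∧ ¬ q ∣ Z₀ ∧ ¬ q ∣ m) → Disjoint S T →
      ∃ c : ℝ, 0 < c ∧ ∃ X₀ : ℝ, ∀ X : ℝ, X₀ ≤ X →
        c * X ^ (1 / ((m : ℝ) * ((n : ℝ) - 1))) / (if m = 2 then Real.log X ^ 2 else 1) ≤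
          ({d : ℤ | |(d : ℝ)| ≤ X ∧ IsDisc n r₁ r₂ (exc n r₁ r₂) m R S T d}.ncard : ℝ) := by
  obtain ⟨Z₀, hZ₀, h⟩ := vals_of_data hn hr (hd_all n r₁ r₂ hn hr)
  refine ⟨Z₀, hZ₀, fun m R hm S T hS hT hST => ?_⟩
  obtain ⟨M, s₁, t₁, x, y, C₁, Z, hM, hcl, hx, hxy, hC₁, hv⟩ := h m R hm S T hS hT hST
  have hN : 1 ≤ 2 * m * (n - 1) := Nat.mul_pos (by omega) (by omega)
  have hmR : (0 : ℝ) < m := by
    have : 0 < m := by omega
    exact_mod_cast this
  have hnR : (0 : ℝ) < (n : ℝ) - 1 := by
    have : (2 : ℝ) ≤ n := by exact_mod_cast hn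
    linarith
  have hcast : ((2 * m * (n - 1) : ℕ) : ℝ) = 2 * m * ((n : ℝ) - 1) := by
    rw [Nat.cast_mul, Nat.cast_mul, Nat.cast_sub (by omega)]
    simp
  have hexp : (2 : ℝ) / ((2 * m * (n - 1) : ℕ) : ℝ) = 1 / ((m : ℝ) * ((n : ℝ) - 1)) := by
    rw [hcast]
    field_simp
  by_cases h2 : m = 2
  · obtain ⟨c, hc, X₀, hX₀⟩ := count_main _ m (2 * m * (n - 1)) 2 hN M s₁ t₁ x y (by linarith)
      (fam2 m (by omega) (by rw [h2]; exact even_two) M s₁ t₁ hM hcl x y hx hxy) C₁ hC₁ Z hv
    refine ⟨c, hc, max X₀ 1, fun X hX => ?_⟩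
    rw [max_le_iff] at hX
    refine le_trans (le_of_eq ?_) (hX₀ X hX.1)
    have hX0 : (0 : ℝ) ≤ X := by linarith [hX.2]
    have hpow : (X ^ ((1 : ℝ) / ((2 * m * (n - 1) : ℕ) : ℝ))) ^ 2 =
        X ^ ((2 : ℝ) / ((2 * m * (n - 1) : ℕ) : ℝ)) := by
      rw [← Real.rpow_natCast, ← Real.rpow_mul hX0]
      congr 1
      rw [Nat.cast_two]
      ring
    rw [if_pos h2, div_pow, hpow, hexp, mul_div_assoc]
  · obtain ⟨c, hc, X₀, hX₀⟩ := count_big _ m (2 * m * (n - 1)) (by omega) hN M s₁ t₁ hM hcl x y
      hx hxy C₁ hC₁ Z hv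
    refine ⟨c, hc, X₀, fun X hX => ?_⟩
    have := hX₀ X hX
    rw [if_neg h2, div_one, ← hexp]
    exact this

end Pool.Agent.Results.MP_176ace_nt.CountingFields
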