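import Pool.Agent.N53.CL.Both
import Pool.Agent.J4H20.AS.Asm

/-!
# `m`-rank of the class group at least `r₂ + 6` in every signature of large degree

The construction takes `K = ℚ(θ)`, `L A(θ) + s ^ m = 0`, where `A` is a product of `n` different linear factors with equal
values at six points (an ideal solution).  The signature is the number of real solutions of `A = - v`, and it takes all
values of the right parity if the local minima of `A` are pairwise different (`t_CNT`).  For `n ≤ 30` this was done with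
explicit data.  Here `A = A₀ (G - κ₁) ⋯ (G - κ_M)` with `G = (x³ - 7x)²`, where `G - κ_i` splits over `ℚ` and `A₀` is one of six
explicit products (`J4H20/AS/Sets`, one for each `n` modulo 6).  If two critical values of `A₀ ⋯ (G - κ)` agree for all `κ` in
an interval, then `G(x) = G(y)` and `A(x) = A(y)` have infinitely many common solutions `x ≠ y` (`t_TIE`; the critical points
are differentiable functions of `κ`, `t_BR`), so `A` is even or `A(x) = A(± y)` on the conic `x² + x y + y² = 7` (`t_ALG`),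
which is excluded at one rational point.  Rational `κ` (for which `G - κ` splits) are dense (`t_BLK`).
-/

set_option autoImplicit false

namespace Pool.Agent.Results.MP_176ace_nt.EverySignature

open NumberField Pool.Agent.W289.CG Pool.Agent.N53.CL

/-- Outside the prime divisors of some `Z > 0` which depends only on `n`, `r₁`, `r₂`, `κ`: for all
`m ≥ 2`, `N`, `R` and all disjoint finite sets `S` and `T` of primes (those of `T` not dividing `m`)
there is a number field `K` of degree `n`, of signature `(r₁, r₂)` and of discriminant larger than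
`N` in absolute value, such that the class group of `K` contains `(ℤ/m)^(r₂+κ)` and `(ℤ/n)^R`, every
prime of `S` splits completely in `K` and every prime of `T` is totally ramified in `K`. -/
def Fields (n r₁ r₂ κ : ℕ) : Prop :=
  ∃ Z : ℕ, 0 < Z ∧ ∀ m N R : ℕ, 2 ≤ m → ∀ S T : Finset ℕ,
    (∀ p ∈ S, p.Prime ∧ ¬ p ∣ Z) → (∀ q ∈ T, q.Prime ∧ ¬ q ∣ Z ∧ ¬ q ∣ m) → Disjoint S T →
    ∃ (K : Type) (_ : Field K) (_ : NumberField K), Module.finrank ℚ K = n ∧
      InfinitePlace.nrRealPlaces K = r₁ ∧ InfinitePlace.nrComplexPlaces K = r₂ ∧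
      (N : ℤ) < |discr K| ∧
      (∃ f : Multiplicative (Fin (r₂ + κ) → ZMod m) →* ClassGroup (𝓞 K), Function.Injective f) ∧
      (∃ f : Multiplicative (Fin R → ZMod n) →* ClassGroup (𝓞 K), Function.Injective f) ∧
      (∀ p ∈ S, ∃ P : Fin n → Ideal (𝓞 K), Function.Injective P ∧ (∀ i, (P i).IsPrime) ∧
        ∏ i, P i = Ideal.span {(p : 𝓞 K)}) ∧
      ∀ q ∈ T, ∃ P : Ideal (𝓞 K), P.IsPrime ∧ P ^ n = Ideal.span {(q : 𝓞 K)}

/-- Let `n ≥ 61`, or `n ≥ 34, 35, 37, 50, 51` and `n ≡ 4, 5, 1, 2, 3` modulo 6, respectively.  For every signature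
`(r₁, r₂)` of degree `n` the fields exist with `κ = 6`: the class groups contain `(ℤ/m)^(r₂+6)`. -/
theorem result (n r₁ r₂ : ℕ) (hn : 61 ≤ n ∨ (n % 6 = 4 ∧ 34 ≤ n) ∨ (n % 6 = 5 ∧ 35 ≤ n) ∨
    (n % 6 = 1 ∧ 37 ≤ n) ∨ (n % 6 = 2 ∧ 50 ≤ n) ∨ (n % 6 = 3 ∧ 51 ≤ n)) (hr : r₁ + 2 * r₂ = n) :
    Fields n r₁ r₂ 6 := by
  obtain ⟨D, v₁, v₂, h₁, h₁₂, hcount⟩ := Pool.Agent.J4H20.AS.dat_all n r₁ hn (by omega) (by omega)
  have hZ0 : D.c * |D.bad| ≠ 0 := (mul_pos D.hc (abs_pos.2 (bad_ne D))).ne'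
  refine ⟨(D.c * |D.bad|).natAbs, Int.natAbs_pos.2 hZ0, fun m N R hm S T hS hT hST => ?_⟩
  obtain ⟨K, hK1, hK2, hfr, hreal, hdisc, hspl, hram, hcl, hR⟩ :=
    of_both (by omega) (by norm_num) D r₁ v₁ v₂ h₁ h₁₂ hcount m N R hm S T
      (fun p hp => ⟨(hS p hp).1, fun h => (hS p hp).2 (Int.natCast_dvd.1 h)⟩)
      (fun q hq => ⟨(hT q hq).1, fun h => (hT q hq).2.1 (Int.natCast_dvd.1 h)⟩) hST
      (fun q hq => (hT q hq).2.2)
  have h8 := InfinitePlace.card_add_two_mul_card_eq_rank K
  have h7 := rank_eq K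
  refine ⟨K, hK1, hK2, hfr, hreal, ?_, hdisc, hcl (r₂ + 6) ?_, hR, hspl, hram⟩
  · omega
  · omega

end Pool.Agent.Results.MP_176ace_nt.EverySignature
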