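import Pool.Agent.J4H20.LV.Fin
import Pool.Agent.J4H20.LV.SHA
import Pool.Agent.J4H57.TR.Emb
import Pool.Agent.J4H97.TQ.PL
import Pool.Agent.J4H97.LV.GM
import Pool.Agent.J4H52.LV.Cll
import Pool.Agent.J4H6.LV.St
import Pool.Agent.J4H98.LV.Shp
import Pool.Agent.J4H15.LV.Eis
import Pool.Agent.J4H15.LV.IND
import Pool.Agent.J4H57.LV.Dsc
import Pool.Agent.J4H79.LV.Loc
import Pool.Agent.J4H98.LV.T2
import Pool.Agent.J4H18.LV.T3
import Pool.Agent.J4H30.LV.T4
import Pool.Agent.J4H55.LV.Ch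
import Pool.Agent.J4H70.LV.Hz
import Pool.Agent.J4H70.LV.Nat
import Pool.Agent.J4H28.LV.Irr
import Pool.Agent.J4H71.LV.Unq
import Pool.Agent.J4H71.LV.Rtz
import Pool.Agent.J4H33.LV.Ar
import Pool.Agent.J4H74.LV.T1
import Pool.Agent.J4H72.LV.Shb
import Pool.Agent.J4H3.LV.Shc

/-!
# `m`-rank of the class group in every signature: at least `r₂ + ⌊n / (m - 1)⌋ - 1 - (n mod (m - 1))`

Write `n = (m - 1) e + j`, `0 ≤ j < m - 1`.  Let `f = ∏ (x - a i)` with `m e` distinct integers `a i`, `f = g ^ m + r`, `g` monic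
of degree `e`, `deg r < (m - 1) e`, let `h` be monic of degree `j`, and let `K = ℚ(θ)` with `(g(θ) + s h(θ)) ^ m = f(θ)`, an
equation of degree `n`; `s = c / M` is rational, its denominator `M` is divisible by all `a i - a j` and prime to all `h(a i)`.
At the primes which divide `M` all `θ - a i` have the same valuation; at the other primes at most one `θ - a i` has a positive
valuation, which is divisible by `m`.  So the quotients `(θ - a i) / (θ - a j)` are `m`-th powers of ideals, and `m e - 2` of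
them are independent modulo `ℓ`-th powers for every prime `ℓ ∣ m` (test primes, by Weil's bound).  The equation is irreducible
by Eisenstein's criterion at an auxiliary prime modulo which `f ≡ x ^ (m e) - m (x - 1) ^ n`.  The signature is found from limit
equations near `e` clusters of `m` points each.
-/

set_option autoImplicit false

namespace Pool.Agent.Results.MP_176ace_nt.MRankEverySignature

open NumberField Pool.Agent.W289.CG Pool.Agent.J4H20.LV

/-- Let `m ≥ 2`, `r₁ + 2 r₂ = n` and `⌊n / (m - 1)⌋ ≥ (n mod (m - 1)) + 2` (for instance `n ≥ m (m - 1)`).  There are number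
fields `K` with `r₁` real and `r₂` complex places and of arbitrarily large discriminant whose class group contains
`(ℤ/m)^(r₂ + ⌊n / (m - 1)⌋ - 1 - (n mod (m - 1)))`. -/
theorem result (m n r₁ r₂ : ℕ) (hm : 2 ≤ m) (hn : n % (m - 1) + 2 ≤ n / (m - 1)) (hr : r₁ + 2 * r₂ = n)
    (N : ℕ) :
    ∃ (K : Type) (_ : Field K) (_ : NumberField K), Module.finrank ℚ K = n ∧
      InfinitePlace.nrRealPlaces K = r₁ ∧ InfinitePlace.nrComplexPlaces K = r₂ ∧
      (N : ℤ) < |discr K| ∧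
      ∃ f : Multiplicative (Fin (r₂ + n / (m - 1) - 1 - n % (m - 1)) → ZMod m) →* ClassGroup (𝓞 K),
        Function.Injective f := by
  obtain ⟨e, he⟩ : ∃ e, e = n / (m - 1) := ⟨_, rfl⟩
  obtain ⟨j, hj⟩ : ∃ j, j = n % (m - 1) := ⟨_, rfl⟩
  have hnn : n = (m - 1) * e + j := by
    rw [he, hj]; exact (Nat.div_add_mod n (m - 1)).symm
  rw [← he, ← hj] at hn ⊢
  obtain ⟨k, D, α, β, h1, h2, h3⟩ := Pool.Agent.J4H33.LV.t_AR Pool.Agent.J4H15.LV.t_EIS
    (Pool.Agent.J4H98.LV.t_SHP (t_SHA Pool.Agent.J4H97.TQ.t_PL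
      Pool.Agent.J4H52.LV.t_CLL Pool.Agent.J4H97.LV.t_GM)
      (Pool.Agent.J4H72.LV.t_SHB Pool.Agent.J4H97.TQ.t_PL Pool.Agent.J4H97.LV.t_GM)
      (Pool.Agent.J4H3.LV.t_SHC Pool.Agent.J4H97.TQ.t_PL Pool.Agent.J4H97.LV.t_GM))
    (Pool.Agent.J4H6.LV.t_ST Pool.Agent.J4H97.TQ.t_PL) Pool.Agent.J4H71.LV.t_RTZ
    Pool.Agent.J4H71.LV.t_UNQ Pool.Agent.J4H70.LV.t_HZ m e j r₁ hm hn (by omega)
    (by rw [← hnn, ← hr, Nat.add_sub_cancel_left]; exact even_two_mul r₂)
  obtain ⟨K, hK1, hK2, hfr, hreal, hdisc, hcl⟩ :=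
    coreL Pool.Agent.J4H70.LV.t_NAT (Pool.Agent.J4H28.LV.t_IRR Pool.Agent.J4H70.LV.t_NAT)
      (Pool.Agent.J4H57.LV.t_DSC Pool.Agent.J4H70.LV.t_NAT) Pool.Agent.J4H57.TR.t_EMB
      Pool.Agent.J4H79.LV.t_LOC (Pool.Agent.J4H15.LV.t_IND Pool.Agent.W349.CG.red)
      (Pool.Agent.J4H55.LV.t_CH Pool.Agent.J4H74.LV.t_T1 Pool.Agent.J4H98.LV.t_T2 Pool.Agent.J4H18.LV.t_T3
        Pool.Agent.J4H30.LV.t_T4) D r₁ α β h1 h2 h3 N
  have h8 := InfinitePlace.card_add_two_mul_card_eq_rank K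
  have h7 := rank_eq K
  have hk := D.hk
  have hme : m * e = (m - 1) * e + e := by
    obtain ⟨q, rfl⟩ : ∃ q, m = q + 1 := ⟨m - 1, by omega⟩
    rw [Nat.add_sub_cancel]
    ring
  exact ⟨K, hK1, hK2, by omega, hreal, by omega, hdisc, hcl _ (by omega)⟩

end Pool.Agent.Results.MP_176ace_nt.MRankEverySignature
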